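import Pool.Agent.helper70.BND.SpecH

/-!
# Row PCM (block H): commutations
-/

set_option autoImplicit false

open scoped Topology
open Finset

namespace Pool.Agent.BND.EX

theorem PCM_cons (n x : ℕ) (hNPR : NPR_stmt) (Y Y' : List ℕ) (h : Y.Perm Y') :
    dI n (x :: Y) (x :: Y') = dI n Y Y' := by
  funext e
  unfold dI
  split_ifs with h1
  · exact (hNPR ((e - n) / n) ((e - n) % n)).2.2.2.1 x Y Y' h
  · rfl

theorem PCM_trans (n : ℕ) (X Y Z : List ℕ) : dI n X Z = fun e => dI n X Y e + dI n Y Z e := by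
  funext e
  unfold dI
  split_ifs with h1
  · ring
  · rfl

theorem PCM_refl (n : ℕ) (X : List ℕ) : dI n X X = fun _ => 0 := by
  funext e
  unfold dI
  split_ifs with h1
  · ring
  · rfl

/-- the degree of one exchange `y x Z` to `x y Z` -/
theorem PCM_swap (A : LD) (hA : A.Gl) (hMKL : MKL_stmt) (hNPR : NPR_stmt) (x y : ℕ) (Z : List ℕ) (hx : x < A.n)
    (hy : y < A.n) (hxy : y < x) (e : ℕ) :
    (Pi.single (A.cb y x) (1 : ℤ) : ℕ → ℤ) e = dI A.n (y :: x :: Z) (x :: y :: Z) e := by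
  obtain ⟨-, -, -, hcb, hex, -, -⟩ := hMKL A hA
  obtain ⟨c1, c2, c3, c4, -, -⟩ := hcb y x hy hx
  unfold dI
  by_cases he : e = A.cb y x
  · subst he
    rw [if_pos ⟨c1, c2, by rw [c3, c4]; exact hxy⟩, (hNPR _ _).2.2.2.2 x y Z, c3, c4, Pi.single_eq_same,
      if_pos ⟨rfl, rfl⟩, if_neg (by omega)]
    ring
  · rw [Pi.single_eq_of_ne he]
    split_ifs with h1
    · rw [(hNPR _ _).2.2.2.2 x y Z]
      obtain ⟨a, b, ha, hb, hab⟩ := hex e h1.1 h1.2.1
      obtain ⟨-, -, d3, d4, -, -⟩ := hcb a b ha hb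
      rw [← hab] at d3 d4
      obtain ⟨-, -, h3⟩ := h1
      rw [d3, d4] at h3 ⊢
      rw [if_neg, if_neg]
      · ring
      · rintro ⟨rfl, rfl⟩
        omega
      · rintro ⟨rfl, rfl⟩
        exact he hab
    · rfl

theorem PCM_swap' (A : LD) (hA : A.Gl) (hMKL : MKL_stmt) (hNPR : NPR_stmt) (x y : ℕ) (Z : List ℕ) (hx : x < A.n)
    (hy : y < A.n) (hxy : x < y) (e : ℕ) :
    -(Pi.single (A.cb x y) (1 : ℤ) : ℕ → ℤ) e = dI A.n (y :: x :: Z) (x :: y :: Z) e := by
  rw [PCM_swap A hA hMKL hNPR y x Z hy hx hxy e]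
  unfold dI
  split_ifs with h1
  · ring
  · rfl

theorem PCM (hMKL : MKL_stmt) (hPSL : PSL_stmt) (hPTR : PTR_stmt) (hPSY : PSY_stmt) (hPRF : PRF_stmt) (hNPR : NPR_stmt) : PCM_stmt := by
  intro A hA Q X X' hp
  induction hp with
  | nil =>
    intro _ B R h1 _
    rw [PCM_refl]
    exact (hPRF A.l Q).1 _ (h1 [] (List.Perm.refl _))
  | @cons x l1 l2 hp ih =>
    intro hx B R h1 h2
    have key : ∀ Y : List ℕ, B ++ (vw (x :: Y) ++ R) = (B ++ [(x, 0)]) ++ (vw Y ++ R) := by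
      intro Y
      simp
    rw [PCM_cons A.n x hNPR l1 l2 hp, key, key]
    apply ih (fun z hz => hx z (List.mem_cons_of_mem _ hz)) (B ++ [(x, 0)]) R
    · intro Y hY
      rw [← key]
      exact h1 _ (List.Perm.cons x hY)
    · intro Y Z a b t hab hb ht hY
      have h3 := h2 (x :: Y) Z a b t hab hb ht (by simpa using List.Perm.cons x hY)
      simpa using h3
  | swap x y Z =>
    intro hX B R h1 h2
    have hx : x < A.n := hX x (by simp)
    have hy : y < A.n := hX y (by simp)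
    obtain ⟨hlv, -, -, hcb, -, -, -⟩ := hMKL A hA
    have hN : A.l.N = A.n + A.n * A.n + A.k := rfl
    rcases lt_trichotomy x y with hxy | hxy | hxy
    · obtain ⟨c1, c2, -, -, c5, c6⟩ := hcb x y hx hy
      have h3 := (hPSL A.l Q B (vw Z ++ R) (A.cb x y) hlv (by omega) (by
        intro t ht
        have := h2 [] Z x y t hxy hy ht (by simpa using List.Perm.swap y x Z)
        simpa using this)).2
      rw [c5, c6] at h3
      have h4 := hPSY A.l Q _ _ _ _ h3
      have h5 := (hPRF A.l Q).2 _ _ _ (dI A.n (y :: x :: Z) (x :: y :: Z)) _ ∅ h4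
        (fun e _ => PCM_swap' A hA hMKL hNPR x y Z hx hy hxy e) (Set.empty_subset _)
      simpa using h5
    · subst hxy
      rw [PCM_refl]
      exact (hPRF A.l Q).1 _ (h1 _ (List.Perm.refl _))
    · obtain ⟨c1, c2, -, -, c5, c6⟩ := hcb y x hy hx
      have h3 := (hPSL A.l Q B (vw Z ++ R) (A.cb y x) hlv (by omega) (by
        intro t ht
        have := h2 [] Z y x t hxy hx ht (by simp)
        simpa using this)).2
      rw [c5, c6] at h3
      have h5 := (hPRF A.l Q).2 _ _ _ (dI A.n (y :: x :: Z) (x :: y :: Z)) _ ∅ h3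
        (fun e _ => PCM_swap A hA hMKL hNPR x y Z hx hy hxy e) (Set.empty_subset _)
      simpa using h5
  | @trans l1 l2 l3 h12 h23 ih1 ih2 =>
    intro hX B R h1 h2
    have hX2 : ∀ x ∈ l2, x < A.n := fun x hx => hX x (h12.mem_iff.2 hx)
    have e1 := ih1 hX B R h1 h2
    have e2 := ih2 hX2 B R (fun Y hY => h1 Y (hY.trans h12.symm))
      (fun Y Z a b t hab hb ht hY => h2 Y Z a b t hab hb ht (hY.trans h12.symm))
    have e3 := hPTR A.l Q _ _ _ _ _ _ _ e1 e2
    rw [Set.empty_union] at e3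
    rw [PCM_trans A.n l1 l2 l3]
    exact e3

end Pool.Agent.BND.EX
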